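import Pool.Agent.H1.CA.TarP
import Pool.Agent.H68.SF.LBas

/-!
# Module MA: the part of the generic filter outside `A_β` is generic over `B_β`
-/

set_option linter.unusedVariables false

open Ordinal Order Set
open scoped ZFSet

namespace CAA

open SF

namespace MA35

variable {D : Dat} {G : V}

theorem mem_Qs {S H q : V} : q ∈ Qs S H ↔ ∃ p ∈ H, rst S p = q := by
  unfold Qs
  rw [mem_imS]

theorem pair_mem_Qr {κ S H p q : V} : ZFSet.pair p q ∈ Qr κ S H ↔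
    p ∈ Qs S H ∧ q ∈ Qs S H ∧ ∀ k ∈ κ, Ee (app p k) (app q k) := by
  unfold Qr
  rw [ZFSet.mem_sep, ZFSet.pair_mem_prod, fst_pair, snd_pair, and_assoc]

theorem of_mem_S {κ : Ordinal.{0}} {S k : V} (hS : S ⊆ κ.toZFSet) (hk : k ∈ S) :
    ∃ i < κ, i.toZFSet = k := mem_toZFSet_iff.1 (hS hk)

theorem H_sub {p : V} (hp : p ∈ D.H G) : p ∈ D.c := by
  unfold Dat.H Hs at hp
  exact (ZFSet.mem_sep.1 hp).1

/-- the elements of the quotient which are in the filter -/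
theorem last (hPB : T_PB) (hPF : T_PF) (hPG : T_PG) (hD : D.Ok) (hG : D.Gn G) {S : V}
    (hS : S ⊆ D.κ.toZFSet) :
    Qs S G = (D.qc G S).sep fun q => ∀ k ∈ S, ZFSet.pair k (app q k) ∈ D.X G := by
  obtain ⟨g1, g2, g3, g4, g5, g6⟩ := hPG D hD G hG
  have f5 := (hPF D hD).2.2.2.2.1
  ext q
  rw [mem_Qs, ZFSet.mem_sep, Dat.qc, mem_Qs]
  constructor
  · rintro ⟨p, hp, rfl⟩
    refine ⟨⟨p, g4 p hp, rfl⟩, fun k hk => ?_⟩
    obtain ⟨i, hi, rfl⟩ := of_mem_S hS hk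
    have hc : p ∈ D.c := hG.1.sub hp
    rw [((hPB.1 p S (f5 p hc).1).2 _).1 hk, g3]
    exact ⟨i, hi, _, ((g2 i hi).1 _).2 ⟨p, hp, rfl⟩, rfl⟩
  · rintro ⟨⟨p, hp, rfl⟩, h⟩
    have hc : p ∈ D.c := H_sub hp
    obtain ⟨p', hp', -, h2⟩ := g6 p hp {k | k.toZFSet ∈ S} (by
      intro k hk hkκ
      have hk : k.toZFSet ∈ S := hk
      have h3 := h _ hk
      rw [((hPB.1 p S (f5 p hc).1).2 _).1 hk, g3] at h3
      obtain ⟨i, hi, q, hq, he⟩ := h3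
      obtain ⟨e1, e2⟩ := ZFSet.pair_inj.1 he
      have e3 : k = i := toZFSet_injective e1
      subst e3
      rw [e2]
      exact hq)
    refine ⟨p', hp', ?_⟩
    ext z
    unfold rst
    rw [ZFSet.mem_sep, ZFSet.mem_sep]
    refine and_congr_left fun hz => ?_
    obtain ⟨i, hi, he⟩ := of_mem_S hS hz
    have hiS : i.toZFSet ∈ S := by rw [he]; exact hz
    exact h2 z ⟨i, hiS, he.symm⟩

theorem isPo (hPA : T_PA) (hPG : T_PG) (hD : D.Ok) (hG : D.Gn G) {S : V} :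
    IsPo (D.qc G S) (D.qr G S) := by
  obtain ⟨g1, g2, g3, g4, g5, g6⟩ := hPG D hD G hG
  refine ⟨?_, ?_, ?_, ?_⟩
  · obtain ⟨p, hp⟩ := hG.1.ne
    exact ⟨rst S p, mem_Qs.2 ⟨p, g4 p hp, rfl⟩⟩
  · intro z hz
    unfold Dat.qr Qr at hz
    obtain ⟨a, ha, b, hb, rfl⟩ := ZFSet.mem_prod.1 (ZFSet.mem_sep.1 hz).1
    exact ⟨a, ha, b, hb, rfl⟩
  · intro p hp
    exact pair_mem_Qr.2 ⟨hp, hp, fun k _ => hPA.1 _⟩
  · intro p q s h1 h2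
    have h1' := pair_mem_Qr.1 h1
    have h2' := pair_mem_Qr.1 h2
    exact pair_mem_Qr.2 ⟨h1'.1, h2'.2.1, fun k hk => hPA.2.1 _ _ _ (h1'.2.2 k hk) (h2'.2.2 k hk)⟩

theorem isFil (hPA : T_PA) (hPB : T_PB) (hPF : T_PF) (hPG : T_PG) (hD : D.Ok) (hG : D.Gn G) {S : V}
    (hS : S ⊆ D.κ.toZFSet) : IsFil (D.qc G S) (D.qr G S) (Qs S G) := by
  have hl := last hPB hPF hPG hD hG hS
  obtain ⟨g1, g2, g3, g4, g5, g6⟩ := hPG D hD G hG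
  obtain ⟨-, -, -, -, f5, -, -, -, f9, -⟩ := hPF D hD
  refine ⟨?_, ?_, ?_, ?_⟩
  · intro q hq
    rw [hl] at hq
    exact (ZFSet.mem_sep.1 hq).1
  · obtain ⟨p, hp⟩ := hG.1.ne
    exact ⟨rst S p, mem_Qs.2 ⟨p, hp, rfl⟩⟩
  · intro q hq q' h
    obtain ⟨-, h1, h2⟩ := pair_mem_Qr.1 h
    rw [hl] at hq ⊢
    obtain ⟨-, h3⟩ := ZFSet.mem_sep.1 hq
    refine ZFSet.mem_sep.2 ⟨h1, fun k hk => ?_⟩
    obtain ⟨p', hp', rfl⟩ := mem_Qs.1 h1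
    obtain ⟨i, hi, rfl⟩ := of_mem_S hS hk
    obtain ⟨j, hj, r, hr, he⟩ := (g3 _).1 (h3 _ hk)
    obtain ⟨e1, e2⟩ := ZFSet.pair_inj.1 he
    have e3 : i = j := toZFSet_injective e1
    subst e3
    have hc : p' ∈ D.c := H_sub hp'
    refine (g3 _).2 ⟨i, hi, _, ?_, rfl⟩
    have h4 := h2 _ (hS hk)
    rw [e2] at h4
    refine (g2 i hi).2.2.2.1 r hr _ ?_ h4
    rw [((hPB.1 p' S (f5 p' hc).1).2 _).1 hk]
    exact (f5 p' hc).2.2.1 i hi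
  · intro q1 hq1 q2 hq2
    obtain ⟨p1, hp1, rfl⟩ := mem_Qs.1 hq1
    obtain ⟨p2, hp2, rfl⟩ := mem_Qs.1 hq2
    obtain ⟨s, hs, h1, h2⟩ := hG.1.dir p1 hp1 p2 hp2
    have key : ∀ p ∈ G, ZFSet.pair s p ∈ D.r → ZFSet.pair (rst S s) (rst S p) ∈ D.qr G S := by
      intro p hp h
      refine pair_mem_Qr.2 ⟨mem_Qs.2 ⟨s, g4 s hs, rfl⟩, mem_Qs.2 ⟨p, g4 p hp, rfl⟩, ?_⟩
      intro k hk
      have e1 := (hPB.1 s S (f5 s (hG.1.sub hs)).1).2 k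
      have e2 := (hPB.1 p S (f5 p (hG.1.sub hp)).1).2 k
      by_cases hkS : k ∈ S
      · rw [e1.1 hkS, e2.1 hkS]
        obtain ⟨i, hi, rfl⟩ := of_mem_S hS hkS
        exact ((f9 _ _).1 h).2.2 i hi
      · rw [e1.2 hkS, e2.2 hkS]
        exact hPA.1 _
    exact ⟨rst S s, mem_Qs.2 ⟨s, hs, rfl⟩, key p1 hp1 h1, key p2 hp2 h2⟩

/-- the relation which is forced; the arguments are `G, κ, c, t, β, e, e'` -/
def RR (ix : V → V → V) (w : ℕ → V) : Prop :=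
  (∀ q ∈ Qs (ix (aS (w 1) (w 3) (Xs (w 1) (w 0)) (Hs (w 1) (w 2) (Xs (w 1) (w 0))) (w 4)) (w 6))
      (w 0),
    q ∉ ix (aS (w 1) (w 3) (Xs (w 1) (w 0)) (Hs (w 1) (w 2) (Xs (w 1) (w 0))) (w 4)) (w 5))

theorem dfb_RR (hPC : T_PC) {ix : V → V → V} (hix : Tm ZFm (fun _ v => ix (v 0) (v 1))) :
    Dfb ZFm (fun _ w => RR ix w) := by
  obtain ⟨-, -, -, -, -, -, hX, hH, hQ, -, -, ha⟩ := hPC
  have tX : Tm ZFm (fun _ w => Xs (w 1) (w 0)) :=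
    Tm.at2 (F := fun _ x y => Xs x y) hX (Tm.var 1) (Tm.var 0)
  have tH : Tm ZFm (fun _ w => Hs (w 1) (w 2) (Xs (w 1) (w 0))) :=
    Tm.at3 (F := fun _ x y z => Hs x y z) hH (Tm.var 1) (Tm.var 2) tX
  have ta : Tm ZFm (fun _ w => aS (w 1) (w 3) (Xs (w 1) (w 0))
      (Hs (w 1) (w 2) (Xs (w 1) (w 0))) (w 4)) := by
    refine ha.comp (args [fun _ w => w 1, fun _ w => w 3, fun _ w => Xs (w 1) (w 0),
      fun _ w => Hs (w 1) (w 2) (Xs (w 1) (w 0)), fun _ w => w 4]) (tm_args _ ?_)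
    intro a ha
    simp only [List.mem_cons, List.not_mem_nil, or_false] at ha
    rcases ha with rfl | rfl | rfl | rfl | rfl
    · exact Tm.var 1
    · exact Tm.var 3
    · exact tX
    · exact tH
    · exact Tm.var 4
  have tS := Tm.at2 (F := fun _ x y => ix x y) hix ta (Tm.var 6)
  have tW := Tm.at2 (F := fun _ x y => ix x y) hix ta (Tm.var 5)
  have tQ := Tm.at2 (F := fun _ x y => Qs x y) hQ tS (Tm.var 0)
  refine (Dfb.ball (R := fun _ v => v 0 ∉ ix (aS (v 2) (v 4) (Xs (v 2) (v 1))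
    (Hs (v 2) (v 3) (Xs (v 2) (v 1))) (v 5)) (v 6)) ktr_zfm tQ
    (Dfb.mem (Tm.var 0) (tW.rn fun i => i + 1)).not).congr fun M k w hw => Iff.rfl

end MA35

open MA35

theorem pf_MA (hPA : T_PA) (hPB : T_PB) (hPC : T_PC) (hPF : T_PF) (hPG : T_PG) (hPN : T_PN)
    (hCC : T_CC) (hCF : T_CF) (hDA : T_DA) (hDS : T_DS) : T_MA := by
  intro D hD G hG β hβ S hSB hS hSA
  obtain ⟨cF, -⟩ := hCF D hD G hG
  obtain ⟨bz, ba, bc, bM, bE, bO, -, bH, bA, -⟩ := cF β hβ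
  have bz' : ZFm (· ∈ D.B G β) := bz.toZFm
  have hκ : D.κ.toZFSet ∈ D.B G β := (bO _).2 (hD.grd.κχ.trans hD.grd.χθ)
  obtain ⟨-, -, -, -, -, -, -, -, tQs, tQr, -, -⟩ := id hPC
  have hin : In (· ∈ D.B G β) (fun _ => ∅) := fun _ => bz'.mempty
  refine ⟨?_, ?_, isPo hPA hPG hD hG, ⟨isFil hPA hPB hPF hPG hD hG hS, ?_⟩,
    last hPB hPF hPG hD hG hS⟩
  · exact tQs.1 _ bz' (cons S (cons (D.H G) fun _ => ∅)) ((hin.cons bH).cons hSB)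
  · exact tQr.1 _ bz' (cons D.κ.toZFSet (cons S (cons (D.H G) fun _ => ∅)))
      (((hin.cons bH).cons hSB).cons hκ)
  intro W hWB hWd
  by_contra hno
  have hno : ∀ q ∈ Qs S G, q ∉ W := fun q hq hqW => hno ⟨q, hq, hqW⟩
  obtain ⟨ix, tix, hix⟩ := hDA
  -- indices of `W` and `S`
  have hidx : ∀ x ∈ D.B G β, ∃ e, D.M e ∧ ix (D.a G β) e = x := by
    intro x hx
    obtain ⟨ρ, hρ, hx'⟩ := (mem_Lh_limit hD.grd.lim).1 (show x ∈ Lh ∅ (D.a G β) D.θ from hx)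
    obtain ⟨ρ', ξ, h1, h2, h3⟩ := hix _ bz' _ ba x ⟨ρ, (bO _).2 hρ, hx'⟩
    refine ⟨_, ?_, h3⟩
    exact hD.grd.zfc.toZFm.mpair ((hD.grd.ord _).2 ((bO _).1 h1)) ((hD.grd.ord _).2 ((bO _).1 h2))
  obtain ⟨e, heM, he⟩ := hidx W hWB
  obtain ⟨e', heM', he'⟩ := hidx S hSB
  -- the forced relation
  obtain ⟨O, tO, hO⟩ := hDS (fun _ w => RR ix w) (dfb_RR hPC tix)
  have mz : ZFm D.M := hD.grd.zfc.toZFm
  have hβθ : β < D.θ := hβ.trans (hD.grd.κχ.trans hD.grd.χθ)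
  have hχθ : ∀ x, x ∈ LA ∅ D.χ → D.M x := fun x hx => Lh_mono hD.grd.χθ.le hx
  have hvM : In D.M (cons D.κ.toZFSet (cons D.c (cons D.tf (cons β.toZFSet
      (cons e (cons e' fun _ => ∅)))))) := by
    have h0 : In D.M (fun _ => ∅) := fun _ => mz.mempty
    exact (((((h0.cons heM').cons heM).cons ((hD.grd.ord _).2 hβθ)).cons (hχθ _ hD.tM)).cons
      (hχθ _ hD.cM)).cons ((hD.grd.ord _).2 (hD.grd.κχ.trans hD.grd.χθ))
  obtain ⟨fpo, fc, fr, -, f5, f6, f7, -, f9, -⟩ := hPF D hD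
  obtain ⟨-, hO2, -⟩ := hO D.M D.c D.r _ mz fc fr fpo hvM
  have eqR : ∀ G', RR ix (cons G' (cons D.κ.toZFSet (cons D.c (cons D.tf (cons β.toZFSet
      (cons e (cons e' fun _ => ∅))))))) ↔
      ∀ q ∈ Qs (ix (D.a G' β) e') G', q ∉ ix (D.a G' β) e := fun G' => Iff.rfl
  have hRG : RR ix (cons G (cons D.κ.toZFSet (cons D.c (cons D.tf (cons β.toZFSet
      (cons e (cons e' fun _ => ∅))))))) := by
    rw [eqR, he, he']
    exact hno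
  obtain ⟨p0, hp0G, hp0O⟩ := (hO2 G hG).1 hRG
  obtain ⟨g1, g2, g3, g4, g5, g6⟩ := hPG D hD G hG
  -- an element of `W` below the restriction of `p0`
  obtain ⟨d, hdW, hd⟩ := hWd.2 (rst S p0) (mem_Qs.2 ⟨p0, g4 p0 hp0G, rfl⟩)
  obtain ⟨hdc, -, hd2⟩ := pair_mem_Qr.1 hd
  obtain ⟨p', hp'H, hp'd⟩ := mem_Qs.1 hdc
  have hp'c : p' ∈ D.c := H_sub hp'H
  have hp0c : p0 ∈ D.c := hG.1.sub hp0G
  have hfin := (g5 p' hp'c).1 hp'H
  set F : Set Ordinal.{0} := {k | k < D.κ ∧ k.toZFSet ∈ S ∧ app p' k.toZFSet ∉ D.F G k} with hF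
  have hFfin : F.Finite := hfin.subset fun k hk => ⟨hk.1, hk.2.2⟩
  obtain ⟨G2, hG2, n1, n2, -, n4, -⟩ := hPN D hD G hG F hFfin (fun k hk => hk.1) p' hp'c
  obtain ⟨k1, k2, k3, k4, k5, k6⟩ := hPG D hD G2 hG2
  have hFA : ∀ j < D.κ, j.toZFSet ∈ D.A G β → D.F G2 j = D.F G j := by
    intro j hj hjA
    exact n1 j hj fun hjF => hSA _ hjF.2.1 hjA
  have ha : D.a G2 β = D.a G β :=
    (hCC D hD G G2 hG hG2 n4 β hβ fun j hj hjA _ => hFA j hj hjA).2 hFA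
  -- values of `d`
  have hdv : ∀ k ∈ S, app d k = app p' k := by
    intro k hk
    rw [← hp'd]
    exact ((hPB.1 p' S (f5 p' hp'c).1).2 k).1 hk
  have hin2 : ∀ k < D.κ, k.toZFSet ∈ S → app p' k.toZFSet ∈ D.F G2 k := by
    intro k hk hkS
    by_cases hkF : k ∈ F
    · exact n2 k hkF
    · rw [n1 k hk hkF]
      by_contra h
      exact hkF ⟨hk, hkS, h⟩
  have hp0G2 : p0 ∈ G2 := by
    refine (k1 p0 hp0c).2 fun k hk => ?_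
    by_cases hkF : k ∈ F
    · have h1 := hd2 k.toZFSet (toZFSet_mem_toZFSet_iff.2 hk)
      rw [hdv _ hkF.2.1, ((hPB.1 p0 S (f5 p0 hp0c).1).2 _).1 hkF.2.1] at h1
      exact (k2 k hk).2.2.2.1 _ (n2 k hkF) _ ((f5 p0 hp0c).2.2.1 k hk) h1
    · rw [n1 k hk hkF]
      exact (g1 p0 hp0c).1 hp0G k hk
  have hdQ : d ∈ Qs S G2 := by
    rw [last hPB hPF hPG hD hG2 hS]
    refine ZFSet.mem_sep.2 ⟨?_, fun k hk => ?_⟩
    · unfold Dat.qc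
      rw [n4]
      exact hdc
    · obtain ⟨i, hi, rfl⟩ := of_mem_S hS hk
      rw [hdv _ hk]
      exact (k3 _).2 ⟨i, hi, _, hin2 i hi hk, rfl⟩
  have hR2 := (hO2 G2 hG2).2 ⟨p0, hp0G2, hp0O⟩
  rw [eqR, ha, he, he'] at hR2
  exact hR2 d hdQ hdW

end CAA
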